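import Pool.Agent.MP_c69980_ag.H43.Spec1

/-! Functions of small degree vanishing to high order along a derivation. -/

set_option autoImplicit false

namespace Pool.Agent.MP_c69980_ag.H43

open MvPolynomial H60 Finset

section Abs
variable {F A ι : Type} [Field F] [CommRing A] [Algebra F A]

/-- Values of polynomials of degree at most `N`. -/
noncomputable abbrev cntW (F : Type) [Field F] [Algebra F A] (x : ι → A) (N : ℕ) : Submodule F A :=
  (restrictTotalDegree ι F N).map (aeval x : MvPolynomial ι F →ₐ[F] A).toLinearMap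

lemma cnt_mem {x : ι → A} {N : ℕ} {u : A} :
    u ∈ cntW F x N ↔ ∃ P : MvPolynomial ι F, P.totalDegree ≤ N ∧ aeval x P = u := by
  simp [cntW, Submodule.mem_map, mem_restrictTotalDegree]

lemma cnt_mono {x : ι → A} {N N' : ℕ} {u : A} (h : u ∈ cntW F x N) (hN : N ≤ N') :
    u ∈ cntW F x N' := by
  obtain ⟨P, h1, h2⟩ := cnt_mem.1 h
  exact cnt_mem.2 ⟨P, h1.trans hN, h2⟩

lemma cnt_mul {x : ι → A} {N N' : ℕ} {u v : A} (h : u ∈ cntW F x N) (h' : v ∈ cntW F x N') :
    u * v ∈ cntW F x (N + N') := by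
  obtain ⟨P, h1, rfl⟩ := cnt_mem.1 h
  obtain ⟨Q, h2, rfl⟩ := cnt_mem.1 h'
  exact cnt_mem.2 ⟨P * Q, (totalDegree_mul P Q).trans (add_le_add h1 h2), map_mul _ _ _⟩

lemma cnt_deg (x : ι → A) (d : A →+ A) (hd : ∀ u v, d (u * v) = u * d v + v * d u)
    (hF : ∀ a : F, ∃ b : F, d (algebraMap F A a) = algebraMap F A b) (c : ℕ)
    (hx : ∀ i, d (x i) ∈ cntW F x c) (N : ℕ) (u : A) (hu : u ∈ cntW F x N) :
    d u ∈ cntW F x (N + c) := by
  classical
  have hC : ∀ a : F, algebraMap F A a ∈ cntW F x 0 := fun a =>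
    cnt_mem.2 ⟨C a, (totalDegree_C a).le, aeval_C _ _⟩
  have gC : ∀ a : F, algebraMap F A a ∈ cntW F x 0 ∧ d (algebraMap F A a) ∈ cntW F x (0 + c) :=
    fun a => ⟨hC a, by
      obtain ⟨b, hb⟩ := hF a
      rw [hb]; exact cnt_mono (hC b) (Nat.zero_le _)⟩
  have gM : ∀ (m n : ℕ) (u v : A), (u ∈ cntW F x m ∧ d u ∈ cntW F x (m + c)) →
      (v ∈ cntW F x n ∧ d v ∈ cntW F x (n + c)) →
      (u * v ∈ cntW F x (m + n) ∧ d (u * v) ∈ cntW F x (m + n + c)) := by
    intro m n u v hu hv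
    refine ⟨cnt_mul hu.1 hv.1, ?_⟩
    rw [hd]
    exact add_mem (cnt_mono (cnt_mul hu.1 hv.2) (by omega))
      (cnt_mono (cnt_mul hv.1 hu.2) (by omega))
  have g1 : (1 : A) ∈ cntW F x 0 ∧ d 1 ∈ cntW F x (0 + c) := by simpa using gC 1
  have gX : ∀ i (k : ℕ), x i ^ k ∈ cntW F x k ∧ d (x i ^ k) ∈ cntW F x (k + c) := by
    intro i k
    induction k with
    | zero => simpa using g1
    | succ k ih =>
      rw [pow_succ]
      exact gM k 1 _ _ ih ⟨cnt_mem.2 ⟨X i, (totalDegree_X i).le, aeval_X _ _⟩,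
        cnt_mono (hx i) (by omega)⟩
  have gP : ∀ (s : Finset ι) (m : ι → ℕ), (∏ i ∈ s, x i ^ m i) ∈ cntW F x (∑ i ∈ s, m i) ∧
      d (∏ i ∈ s, x i ^ m i) ∈ cntW F x (∑ i ∈ s, m i + c) := by
    intro s m
    induction s using Finset.induction_on with
    | empty => simpa using g1
    | insert i s hi ih =>
      rw [prod_insert hi, sum_insert hi]
      exact gM _ _ _ _ (gX i _) ih
  obtain ⟨P, h1, rfl⟩ := cnt_mem.1 hu
  rw [P.as_sum, map_sum, map_sum]
  refine sum_mem fun m hm => ?_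
  rw [aeval_monomial]
  refine cnt_mono (gM _ _ _ _ (gC _) (gP m.support m)).2 ?_
  have := (le_totalDegree hm).trans h1
  simp only [Finsupp.sum] at this
  omega

/-- Vanishing to order `j` modulo `I`. -/
def cntJ (d : A →+ A) (I : Ideal A) (j : ℕ) (u : A) : Prop := ∀ i < j, d^[i] u ∈ I

lemma cntJ_succ {d : A →+ A} {I : Ideal A} {j : ℕ} {u : A} :
    cntJ d I (j + 1) u ↔ u ∈ I ∧ cntJ d I j (d u) := by
  refine ⟨fun h => ⟨h 0 (by omega), fun i hi => h (i + 1) (by omega)⟩, fun h i hi => ?_⟩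
  cases i with
  | zero => exact h.1
  | succ i => exact h.2 i (by omega)

lemma cntJ_add {d : A →+ A} {I : Ideal A} {j : ℕ} {u v : A} (h : cntJ d I j u)
    (h' : cntJ d I j v) : cntJ d I j (u + v) := fun i hi => by
  rw [iterate_map_add]; exact add_mem (h i hi) (h' i hi)

lemma cntJ_mul {d : A →+ A} (hd : ∀ u v, d (u * v) = u * d v + v * d u) {I : Ideal A} (j : ℕ) :
    ∀ a u : A, cntJ d I j u → cntJ d I j (a * u) := by
  induction j with
  | zero => exact fun _ _ _ i hi => absurd hi (by omega)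
  | succ j ih =>
    intro a u h
    refine cntJ_succ.2 ⟨I.mul_mem_left a (cntJ_succ.1 h).1, ?_⟩
    rw [hd, mul_comm u]
    exact cntJ_add (ih _ _ (cntJ_succ.1 h).2) (ih _ _ fun i hi => h i (by omega))

lemma cntJ_lin {d : A →+ A} (hd : ∀ u v, d (u * v) = u * d v + v * d u) {I : Ideal A} (j : ℕ) :
    ∀ a u : A, cntJ d I j u → d^[j] (a * u) - a * d^[j] u ∈ I := by
  induction j with
  | zero => intro a u _; simp
  | succ j ih =>
    intro a u h
    rw [Function.iterate_succ_apply, Function.iterate_succ_apply, hd, iterate_map_add, mul_comm u,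
      add_sub_right_comm]
    exact add_mem (ih _ _ (cntJ_succ.1 h).2) (cntJ_mul hd _ _ _ h j (by omega))

/-- The space of elements vanishing to order `j`. -/
def cntS (F : Type) [Field F] [Algebra F A] {d : A →+ A}
    (hd : ∀ u v, d (u * v) = u * d v + v * d u) (I : Ideal A) (j : ℕ) : Submodule F A where
  carrier := {u | cntJ d I j u}
  add_mem' := cntJ_add
  zero_mem' := fun i _ => by rw [iterate_map_zero]; exact zero_mem I
  smul_mem' := fun a u h => by rw [Algebra.smul_def]; exact cntJ_mul hd j _ _ h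

lemma cnt_quot (x : ι → A) (I : Ideal A) (P : MvPolynomial ι F) :
    aeval (fun i => Ideal.Quotient.mk I (x i)) P = Ideal.Quotient.mk I (aeval x P) :=
  (congrArg (fun g => g P) (comp_aeval (f := x) (Ideal.Quotient.mkₐ F I))).symm

lemma cnt_step [Finite ι] (x : ι → A) {d : A →+ A} (hd : ∀ u v, d (u * v) = u * d v + v * d u)
    (I : Ideal A) (n j N : ℕ) (h : ∀ u ∈ cntW F x n, d^[j] u ∈ cntW F x N) :
    Module.finrank F (cntW F x n ⊓ cntS F hd I j : Submodule F A) ≤
      Module.finrank F (cntW F x n ⊓ cntS F hd I (j + 1) : Submodule F A) +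
        Module.finrank F (cntW F (fun i => Ideal.Quotient.mk I (x i)) N) := by
  have : ∀ k, Module.Finite F (cntW F x n ⊓ cntS F hd I k : Submodule F A) := fun k =>
    Submodule.finiteDimensional_of_le inf_le_left
  let f : (cntW F x n ⊓ cntS F hd I j : Submodule F A) →ₗ[F] A ⧸ I :=
    { toFun := fun u => Ideal.Quotient.mk I (d^[j] u.1)
      map_add' := fun u v => by rw [Submodule.coe_add, iterate_map_add, map_add]
      map_smul' := fun a u => by
        rw [Submodule.coe_smul, Algebra.smul_def, RingHom.id_apply, Algebra.smul_def,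
          ← Ideal.Quotient.mk_algebraMap, ← map_mul, Ideal.Quotient.eq]
        exact cntJ_lin hd j _ _ u.2.2 }
  rw [← f.finrank_range_add_finrank_ker, add_comm]
  refine add_le_add ?_ (Submodule.finrank_mono ?_)
  · rw [← Submodule.finrank_map_subtype_eq]
    refine Submodule.finrank_mono ?_
    rintro _ ⟨u, hu, rfl⟩
    refine ⟨u.2.1, fun i hi => ?_⟩
    rcases Nat.lt_succ_iff_lt_or_eq.1 hi with hi | rfl
    · exact u.2.2 i hi
    · exact Ideal.Quotient.eq_zero_iff_mem.1 hu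
  · rintro _ ⟨u, rfl⟩
    obtain ⟨P, h1, h2⟩ := cnt_mem.1 (h u.1 u.2.1)
    refine cnt_mem.2 ⟨P, h1, ?_⟩
    change _ = Ideal.Quotient.mk I (d^[j] u.1)
    rw [← h2, cnt_quot]

lemma cnt_low [Finite ι] (x : ι → A) (p k : ℕ) (y : Fin p → ι)
    (hy : AlgebraicIndependent F (x ∘ y)) : (k + 1) ^ p ≤ Module.finrank F (cntW F x (p * k)) := by
  classical
  let e : (Fin p → Fin (k + 1)) → (Fin p →₀ ℕ) := fun a =>
    Finsupp.equivFunOnFinite.symm fun i => (a i : ℕ)
  have he : Function.Injective e := fun a b h => by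
    funext i
    exact Fin.ext (congrFun (Finsupp.equivFunOnFinite.symm.injective h) i)
  have h1 : LinearIndependent F fun a => aeval (x ∘ y) (basisMonomials (Fin p) F (e a)) :=
    (((basisMonomials (Fin p) F).linearIndependent.comp e he).map'
      (aeval (x ∘ y) : MvPolynomial (Fin p) F →ₐ[F] A).toLinearMap
      (LinearMap.ker_eq_bot.2 hy))
  have h2 : ∀ a, aeval (x ∘ y) (basisMonomials (Fin p) F (e a)) ∈ cntW F x (p * k) := fun a => by
    refine cnt_mem.2 ⟨rename y (monomial (e a) 1), (totalDegree_rename_le _ _).trans ?_, ?_⟩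
    · rw [totalDegree_monomial _ one_ne_zero, Finsupp.sum_fintype _ _ fun _ => rfl]
      calc ∑ i, e a i ≤ ∑ _i : Fin p, k := sum_le_sum fun i _ => Nat.lt_succ_iff.1 (a i).2
        _ = p * k := by simp
    · rw [aeval_rename, coe_basisMonomials]
  have h3 : LinearIndependent F fun a => (⟨_, h2 a⟩ : cntW F x (p * k)) :=
    LinearIndependent.of_comp (cntW F x (p * k)).subtype h1
  simpa using h3.fintype_card_le_finrank

lemma cnt_main [Fintype ι] (x : ι → A) (d : A →+ A) (hd : ∀ u v, d (u * v) = u * d v + v * d u)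
    (hF : ∀ a : F, ∃ b : F, d (algebraMap F A a) = algebraMap F A b)
    (hx : ∀ i, ∃ P : MvPolynomial ι F, aeval x P = d (x i)) (I : Ideal A) (e C : ℕ)
    (hC : ∀ N, Module.finrank F (cntW F (fun i => Ideal.Quotient.mk I (x i)) N) ≤ C * (N + 1) ^ e)
    (y : Fin (e + 2) → ι) (hy : AlgebraicIndependent F (x ∘ y)) (lam : ℕ) :
    ∃ (n l : ℕ) (P : MvPolynomial ι F), P.totalDegree ≤ n ∧ aeval x P ≠ 0 ∧ 0 < l ∧ lam * n ≤ l ∧
      ∀ j < l, d^[j] (aeval x P) ∈ I := by
  choose Q hQ using hx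
  obtain ⟨c, hc⟩ : ∃ c, ∀ i, d (x i) ∈ cntW F x c :=
    ⟨univ.sup fun i => (Q i).totalDegree, fun i =>
      cnt_mem.2 ⟨Q i, le_sup (f := fun i => (Q i).totalDegree) (mem_univ i), hQ i⟩⟩
  obtain ⟨L, hL⟩ : ∃ L, L = lam * (e + 2) + 1 := ⟨_, rfl⟩
  obtain ⟨k, hk⟩ : ∃ k, k = L * (C * (e + 2 + c * L + 1) ^ e) := ⟨_, rfl⟩
  obtain ⟨n, hn⟩ : ∃ n, n = (e + 2) * k := ⟨_, rfl⟩
  have hit : ∀ j, ∀ u ∈ cntW F x n, d^[j] u ∈ cntW F x (n + c * j) := by
    intro j u hu
    induction j with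
    | zero => simpa using hu
    | succ j ih =>
      rw [Function.iterate_succ_apply']
      exact cnt_mono (cnt_deg x d hd hF c hc _ _ ih) (by rw [mul_add]; omega)
  have hdim : ∀ j, Module.finrank F (cntW F x n) ≤
      Module.finrank F (cntW F x n ⊓ cntS F hd I j : Submodule F A) +
        j * (C * (n + c * j + 1) ^ e) := by
    intro j
    induction j with
    | zero =>
      have : cntW F x n ⊓ cntS F hd I 0 = cntW F x n :=
        inf_eq_left.2 fun u _ i hi => absurd hi (by omega)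
      rw [this]; omega
    | succ j ih =>
      have h1 := cnt_step x hd I n j _ (hit j)
      have h2 := hC (n + c * j)
      have h3 : C * (n + c * j + 1) ^ e ≤ C * (n + c * (j + 1) + 1) ^ e := by gcongr; omega
      have h4 : j * (C * (n + c * j + 1) ^ e) ≤ j * (C * (n + c * (j + 1) + 1) ^ e) := by gcongr
      rw [add_one_mul]
      omega
  have hlow := cnt_low x (e + 2) k y hy
  rw [← hn] at hlow
  have hl : lam * n + 1 ≤ L * (k + 1) := by rw [hL, hn]; nlinarith [Nat.zero_le k, Nat.zero_le lam]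
  have hup : (lam * n + 1) * (C * (n + c * (lam * n + 1) + 1) ^ e) ≤ k * (k + 1) ^ (e + 1) := by
    have h1 : n + c * (lam * n + 1) + 1 ≤ (e + 2 + c * L + 1) * (k + 1) := by
      have := Nat.mul_le_mul_left c hl
      rw [hn] at this ⊢
      nlinarith [Nat.zero_le k, Nat.zero_le e]
    calc _ ≤ (L * (k + 1)) * (C * ((e + 2 + c * L + 1) * (k + 1)) ^ e) := by gcongr
      _ = (L * (C * (e + 2 + c * L + 1) ^ e)) * (k + 1) ^ (e + 1) := by rw [mul_pow]; ring
      _ = _ := by rw [← hk]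
  have hne : cntW F x n ⊓ cntS F hd I (lam * n + 1) ≠ ⊥ := by
    intro h
    have h1 := hdim (lam * n + 1)
    rw [h, finrank_bot] at h1
    have h2 : (k + 1) ^ (e + 2) = k * (k + 1) ^ (e + 1) + (k + 1) ^ (e + 1) := by ring
    have h3 : 0 < (k + 1) ^ (e + 1) := by positivity
    omega
  obtain ⟨u, hu, hu0⟩ := Submodule.exists_mem_ne_zero_of_ne_bot hne
  obtain ⟨P, h1, rfl⟩ := cnt_mem.1 hu.1
  exact ⟨n, lam * n + 1, P, h1, hu0, by omega, by omega, hu.2⟩

end Abs

theorem sCnt (h1 : SEmb) (_h2 : SInd) (h3 : SHilb) : SCnt := by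
  intro F D ι _ x s p hF hDF hDR hs hp hξ lam
  let I : Ideal (RA F x) := Ideal.span {u | (u : ℂ) ∈ s}
  have hI : ∀ u ∈ I, (u : ℂ) ∈ Submodule.span (RA F x) s := by
    intro u hu
    induction hu using Submodule.span_induction with
    | mem u h => exact Submodule.subset_span h
    | zero => exact zero_mem _
    | add _ _ _ _ a b => exact add_mem a b
    | smul a u _ h => exact Submodule.smul_mem _ a h
  by_cases hT : I = ⊤
  · refine ⟨0, 1, 1, cf_one, by simp, by simp, one_pos, by simp, fun j hj => ?_⟩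
    obtain rfl : j = 0 := by omega
    simpa using hI 1 (hT ▸ Submodule.mem_top)
  have key : ∀ q : Ideal (RA F x), q.IsPrime → I ≤ q → ∃ ξ : RA F x →ₐ[F] ℂ,
      (∀ u, ξ u = 0 → u ∈ q) ∧ ∀ n, Ind F n (Set.range ξ) → n + 2 ≤ p := by
    intro q hq hIq
    obtain ⟨φ, hφ⟩ := h1.1 F hF (RA F x ⧸ q) ((Cardinal.mk_le_of_surjective
      Ideal.Quotient.mk_surjective).trans
        ((Cardinal.mk_subtype_le _).trans Cardinal.mk_complex.le))
    refine ⟨φ.comp (Ideal.Quotient.mkₐ F q), fun u hu => ?_, hξ _ fun u hu => ?_⟩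
    · exact Ideal.Quotient.eq_zero_iff_mem.1 (hφ (hu.trans (map_zero φ).symm))
    · have : Ideal.Quotient.mk q u = 0 :=
        Ideal.Quotient.eq_zero_iff_mem.2 (hIq (Ideal.subset_span hu))
      change φ (Ideal.Quotient.mk q u) = 0
      rw [this, map_zero]
  obtain ⟨e, rfl⟩ : ∃ e, p = e + 2 := by
    obtain ⟨m, hm, hIm⟩ := Ideal.exists_le_maximal I hT
    obtain ⟨ξ, -, h⟩ := key m hm.isPrime hIm
    exact ⟨p - 2, by have := h 0 (ind_zero _ _); omega⟩
  let x' : ι → RA F x := fun i => ⟨x i, gen_mem x i⟩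
  have hx' : ∀ P : MvPolynomial ι F, ((aeval x' P : RA F x) : ℂ) = aeval x P := fun P =>
    congrArg (fun f => f P) (comp_aeval (f := x') (RA F x).val)
  obtain ⟨C, hC⟩ := h3 F (RA F x ⧸ I) ι (fun i => Ideal.Quotient.mk I (x' i)) e (by
    intro y
    by_contra hne
    push Not at hne
    have hdis : Disjoint (I : Set (RA F x)) ((nonZeroDivisors (MvPolynomial (Fin (e + 1)) F)).map
        (aeval (x' ∘ y) : MvPolynomial (Fin (e + 1)) F →ₐ[F] RA F x) : Submonoid (RA F x)) := by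
      rw [Set.disjoint_left]
      rintro _ hu ⟨H, hH, rfl⟩
      refine hne H (nonZeroDivisors.ne_zero hH) ?_
      exact (cnt_quot (x' ∘ y) I H).trans (Ideal.Quotient.eq_zero_iff_mem.2 hu)
    obtain ⟨q, hq, hIq, hd⟩ := Ideal.exists_le_prime_disjoint _ _ hdis
    obtain ⟨ξ, h4, h5⟩ := key q hq hIq
    have := h5 (e + 1) ⟨fun j => ξ (x' (y j)), fun j => ⟨_, rfl⟩, by
      rw [algebraicIndependent_iff]
      intro H hH
      by_contra h0
      refine Set.disjoint_left.1 hd (h4 (aeval (x' ∘ y) H) ?_)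
        ⟨H, mem_nonZeroDivisors_of_ne_zero h0, rfl⟩
      rw [← hH]
      exact congrArg (fun g => g H) (comp_aeval (f := x' ∘ y) ξ)⟩
    omega)
  let d : RA F x →+ RA F x :=
    { toFun := fun u => ⟨D u, hDR _ u.2⟩
      map_zero' := Subtype.ext (map_zero D)
      map_add' := fun u v => Subtype.ext (map_add D _ _) }
  have hdi : ∀ j (u : RA F x), ((d^[j] u : RA F x) : ℂ) = D^[j] u := by
    intro j
    induction j with
    | zero => exact fun _ => rfl
    | succ j ih => exact fun u => ih (d u)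
  obtain ⟨z, hz, hzi⟩ := hp
  choose y hy using hz
  obtain ⟨n, l, P, a1, a2, a3, a4, a5⟩ := cnt_main x' d
    (fun u v => Subtype.ext (D.leibniz (u : ℂ) v))
    (fun a => ⟨⟨D a, hDF _ a.2⟩, rfl⟩)
    (fun i => by
      obtain ⟨P, hP, h⟩ := mem_RA.1 (hDR _ (gen_mem x i))
      obtain ⟨P, rfl⟩ := cf_iff.1 hP
      exact ⟨P, Subtype.ext (by rw [hx', ← eval_map_sub, h]; rfl)⟩)
    I e C hC y (AlgebraicIndependent.of_comp (RA F x).val (by
      convert hzi using 1
      exact funext hy)) lam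
  refine ⟨n, l, map F.subtype P, cf_map P, (Finset.sup_mono (support_map_subset _ _)).trans a1, ?_, a3, a4,
    fun j hj => ?_⟩
  · rw [eval_map_sub, ← hx']
    exact fun h => a2 (Subtype.ext h)
  · rw [eval_map_sub, ← hx', ← hdi]
    exact hI _ (a5 j hj)

end Pool.Agent.MP_c69980_ag.H43
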